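import Pool.Agent.helper23.CO.SpecB

/-!
# Row co:CNT: countably many points of left discontinuity
-/

open Finset Filter Topology

namespace CO

theorem CNT (hMSP : MSP_stmt) : CNT_stmt := by
  intro d
  obtain ⟨-, hmono, -, -⟩ := hMSP d
  have hg : Monotone (fun b : ℝ => ms d (max b 0)) := by
    intro b b' hbb
    exact hmono _ _ (le_max_right _ _) (max_le_max hbb le_rfl)
  refine hg.countable_not_continuousAt.mono ?_
  rintro β ⟨hβ, hL⟩
  intro hc
  apply hL
  intro ε hε
  have hc' : ContinuousAt (fun b : ℝ => ms d (max b 0)) β := hc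
  rw [Metric.continuousAt_iff] at hc'
  obtain ⟨δ, hδ, h1⟩ := hc' ε hε
  have h2 : max (β - δ / 2) (β / 2) < β := max_lt (by linarith) (by linarith)
  have h3 : 0 ≤ max (β - δ / 2) (β / 2) := le_trans (by linarith) (le_max_right _ _)
  have h4 : β - δ / 2 ≤ max (β - δ / 2) (β / 2) := le_max_left _ _
  refine ⟨max (β - δ / 2) (β / 2), h3, h2, ?_⟩
  have h5 := h1 (x := max (β - δ / 2) (β / 2)) (by
    rw [Real.dist_eq, abs_lt]
    constructor <;> linarith)
  simp only [Real.dist_eq] at h5
  rw [max_eq_left h3, max_eq_left hβ.le, abs_lt] at h5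
  linarith [h5.1]

end CO
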